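import Pool.Agent.Helper81.IC.Trans
import Pool.Agent.Helper65.BR.Defs

/-!
# Project UR (MP_c578c8_lc), packet PRG: programs of random access machines with a cache

`prg_within`: an accepting run of a program which is served by a small cache, and in which the total
volume of the transfers is at most `C n ^ 2 / l ^ 4` bits, is an accepting run of the machine with a
memory of blocks `mach D P`, with the bounds of `WithinU`. `prg_sound` is the converse (without
bounds). `prg_time` is the special case without a cache: time `C n ^ 2 / l ^ 5`.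
-/

set_option autoImplicit false

namespace Pool.Agent.Helper81.UR

open Pool.Agent.Helper65.LinSpace Pool.Agent.Helper78.Mpc Pool.Agent.Helper28.Ram
open Pool.Agent.Helper65.BR (BM)
open Pool.Agent.Helper81.RP (Ins AcceptsAt conf)
open Pool.Agent.Helper81.RR (ld)
open Pool.Agent.Helper81.IC (Served mach cTr translate served_one sound ld_lt)
open Pool.Agent.Helper92.RE

/-- The machine accepts the input word `w` of length `n`, with the additional word `y`, for some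
parameter `p` at some time `r`, with the following bounds: the parameter, states and addresses have
at most `s` bits, names of blocks at most `m` bits, contents of blocks at most `a` bits, and at most
`x` blocks are read. For `l = m + ⌊log₂ n⌋ + 1`: `x (a + 1) l ^ 4 ≤ C (n + 1) ^ 2` and
`(s + a) l ^ 4 ≤ C (n + 1)`. The time `r` is not bounded. -/
def WithinU (A : BM) (C : ℝ) (w y : List Bool) : Prop :=
  ∃ (p : List Bool) (r s m a : ℕ), A.AcceptsAt w y p r ∧ p.length ≤ s ∧ A.Fits w y p r s m a ∧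
    (A.reads w y p r : ℝ) * ((a : ℝ) + 1) *
      ((m : ℝ) + ((Nat.log 2 w.length : ℝ) + 1)) ^ 4 ≤ C * ((w.length : ℝ) + 1) ^ 2 ∧
    ((s : ℝ) + a) * ((m : ℝ) + ((Nat.log 2 w.length : ℝ) + 1)) ^ 4 ≤ C * ((w.length : ℝ) + 1)

/-- The program `P` accepts the word `w` of length `n`, with the second word `y`, at some time `t`, all
numbers in the registers being less than `2 ^ s` up to this time and the numbers of the registers which
are loaded less than `2 ^ b`, and its loads are served by a cache of `k` lines of `B` registers, into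
which `x` lines are brought, where `⌊log₂ n⌋ + 1 ≤ s` and, for `l = b + ⌊log₂ n⌋ + 1`,
`x B s l ^ 4 ≤ C (n + 1) ^ 2` and `k B s l ^ 4 ≤ C (n + 1)`. The time is not bounded, and the
program stores without the cache. -/
def WithinP (P : List Ins) (C : ℝ) (w y : List Bool) : Prop :=
  ∃ t s b B k x : ℕ, Nat.log 2 w.length + 1 ≤ s ∧ 0 < B ∧ 0 < k ∧ AcceptsAt P w y t ∧
    (∀ u ≤ t, ∀ i, (conf P w y u).2 i < 2 ^ s) ∧
    (∀ u ≤ t, ∀ z, ld P (conf P w y u) = some z → z < 2 ^ b) ∧ Served P w y B k x t ∧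
    (x : ℝ) * B * s * ((b : ℝ) + ((Nat.log 2 w.length : ℝ) + 1)) ^ 4 ≤
      C * ((w.length : ℝ) + 1) ^ 2 ∧
    (k : ℝ) * B * s * ((b : ℝ) + ((Nat.log 2 w.length : ℝ) + 1)) ^ 4 ≤ C * ((w.length : ℝ) + 1)

/-- The arithmetic of the bounds. -/
theorem boundsU {C N N' B₀ l l' s k B x r e a : ℝ} (hl' : 0 ≤ l')
    (hll : l' ≤ 2 * l) (hs : 1 ≤ s) (hk : 1 ≤ k) (hB : 1 ≤ B) (hx : 0 ≤ x) (hN : 1 ≤ N)
    (hB₀ : 1 ≤ B₀) (hN0 : 0 ≤ N') (hN' : N' ≤ B₀ * N) (hr : r ≤ 2 * x + 2 * k)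
    (ha : a = (s + 1) * B) (he : 0 ≤ e)
    (b1 : x * B * s * l ^ 4 ≤ C * N' ^ 2) (b2 : k * B * s * l ^ 4 ≤ C * N') :
    r * (a + 1) * l' ^ 4 ≤ (192 + 16 * (e + 2)) * |C| * B₀ ^ 2 * N ^ 2 ∧
      (e * (s * k * B) + a) * l' ^ 4 ≤ (192 + 16 * (e + 2)) * |C| * B₀ ^ 2 * N := by
  have hC := abs_nonneg C
  have hCC := le_abs_self C
  have hl4 : l' ^ 4 ≤ 16 * l ^ 4 := by
    calc l' ^ 4 ≤ (2 * l) ^ 4 := pow_le_pow_left₀ hl' hll 4
      _ = 16 * l ^ 4 := by ring
  have hl40 : 0 ≤ l ^ 4 := by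
    have := pow_nonneg hl' 4
    linarith
  have hsB : 1 ≤ s * B := by nlinarith
  have ha3 : a + 1 ≤ 3 * (s * B) := by
    rw [ha]
    nlinarith
  have ha2 : a ≤ 2 * (s * k * B) := by
    rw [ha]
    have h1 : (s + 1) * B ≤ 2 * (s * B) := by nlinarith
    have h2 : s * B ≤ s * k * B := by nlinarith
    linarith
  have ha0 : 0 ≤ a := by
    rw [ha]
    exact mul_nonneg (by linarith) (by linarith)
  have hskB : 0 ≤ s * k * B := mul_nonneg (mul_nonneg (by linarith) (by linarith)) (by linarith)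
  have hB2 : B₀ ≤ B₀ ^ 2 := by nlinarith
  have hNN : N ≤ N ^ 2 := by nlinarith
  have hB20 : (0 : ℝ) ≤ B₀ ^ 2 := sq_nonneg _
  have c1 : x * B * s * l ^ 4 ≤ |C| * (B₀ ^ 2 * N ^ 2) := by
    calc x * B * s * l ^ 4 ≤ C * N' ^ 2 := b1
      _ ≤ |C| * N' ^ 2 := mul_le_mul_of_nonneg_right hCC (sq_nonneg _)
      _ ≤ |C| * (B₀ * N) ^ 2 :=
        mul_le_mul_of_nonneg_left (pow_le_pow_left₀ hN0 hN' 2) hC
      _ = _ := by ring
  have c2 : k * B * s * l ^ 4 ≤ |C| * (B₀ * N) := by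
    calc k * B * s * l ^ 4 ≤ C * N' := b2
      _ ≤ |C| * N' := mul_le_mul_of_nonneg_right hCC hN0
      _ ≤ |C| * (B₀ * N) := mul_le_mul_of_nonneg_left hN' hC
  have c3 : |C| * (B₀ * N) ≤ |C| * (B₀ ^ 2 * N) :=
    mul_le_mul_of_nonneg_left (mul_le_mul_of_nonneg_right hB2 (by linarith)) hC
  have c4 : |C| * (B₀ ^ 2 * N) ≤ |C| * (B₀ ^ 2 * N ^ 2) :=
    mul_le_mul_of_nonneg_left (mul_le_mul_of_nonneg_left hNN hB20) hC
  have c5 : 0 ≤ |C| * (B₀ ^ 2 * N) := mul_nonneg hC (mul_nonneg hB20 (by linarith))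
  have c6 : 0 ≤ |C| * (B₀ ^ 2 * N ^ 2) := c5.trans c4
  constructor
  · have h1 : r * (a + 1) ≤ (2 * x + 2 * k) * (3 * (s * B)) := by
      refine mul_le_mul hr ha3 (by linarith) (by linarith)
    calc r * (a + 1) * l' ^ 4
        ≤ (2 * x + 2 * k) * (3 * (s * B)) * l' ^ 4 :=
          mul_le_mul_of_nonneg_right h1 (pow_nonneg hl' 4)
      _ ≤ (2 * x + 2 * k) * (3 * (s * B)) * (16 * l ^ 4) :=
          mul_le_mul_of_nonneg_left hl4 (mul_nonneg (by linarith) (by linarith))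
      _ = 96 * (x * B * s * l ^ 4) + 96 * (k * B * s * l ^ 4) := by ring
      _ ≤ 192 * (|C| * (B₀ ^ 2 * N ^ 2)) := by linarith
      _ ≤ (192 + 16 * (e + 2)) * (|C| * (B₀ ^ 2 * N ^ 2)) :=
          mul_le_mul_of_nonneg_right (by linarith) c6
      _ = _ := by ring
  · have h1 : e * (s * k * B) + a ≤ (e + 2) * (s * k * B) := by linarith
    calc (e * (s * k * B) + a) * l' ^ 4
        ≤ (e + 2) * (s * k * B) * l' ^ 4 := mul_le_mul_of_nonneg_right h1 (pow_nonneg hl' 4)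
      _ ≤ (e + 2) * (s * k * B) * (16 * l ^ 4) :=
          mul_le_mul_of_nonneg_left hl4 (mul_nonneg (by linarith) hskB)
      _ = 16 * (e + 2) * (k * B * s * l ^ 4) := by ring
      _ ≤ 16 * (e + 2) * (|C| * (B₀ ^ 2 * N)) :=
          mul_le_mul_of_nonneg_left (c2.trans c3) (by linarith)
      _ ≤ (192 + 16 * (e + 2)) * (|C| * (B₀ ^ 2 * N)) :=
          mul_le_mul_of_nonneg_right (by linarith) c5
      _ = _ := by ring

/-- **Programs with a cache**: the machine `mach D P` is within the bounds. -/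
theorem prg_within {D : LD} {F : List Bool → List Bool} (hF : D.Is F) {b₀ : ℕ}
    (hlen : ∀ w, (F w).length ≤ b₀ * (w.length + 1)) (hle : ∀ w, w.length ≤ (F w).length)
    (P : List Ins) (C : ℝ) :
    ∃ C' : ℝ, ∀ w y : List Bool, WithinP P C (F w) y → WithinU (mach D P) C' w y := by
  set B₀ : ℝ := (b₀ : ℝ) + 1 with hB
  have hB1 : 1 ≤ B₀ := by
    have h1 : (0 : ℝ) ≤ b₀ := Nat.cast_nonneg _
    linarith
  refine ⟨(192 + 16 * ((cTr P : ℝ) + 2)) * |C| * B₀ ^ 2, ?_⟩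
  rintro w y ⟨t, s, b, B, k, x, hls, hBpos, hkpos, hacc, hR, hb, hserv, b1, b2⟩
  obtain ⟨p, r, h1, h2, h3, h4⟩ := translate hF P (hle w) hls hBpos hkpos hacc hR hb hserv
  have hs1 : 1 ≤ s := by omega
  have hlogF : Nat.log 2 w.length ≤ Nat.log 2 (F w).length := Nat.log_mono_right (hle w)
  have hN' : ((F w).length : ℝ) + 1 ≤ B₀ * ((w.length : ℝ) + 1) := by
    have h1 : (F w).length + 1 ≤ (b₀ + 1) * (w.length + 1) := by
      have h2 := hlen w
      calc (F w).length + 1 ≤ b₀ * (w.length + 1) + 1 := by omega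
        _ ≤ (b₀ + 1) * (w.length + 1) := by nlinarith
    rw [hB]
    exact_mod_cast h1
  have hll : (((b + 1 : ℕ) : ℝ) + ((Nat.log 2 w.length : ℝ) + 1)) ≤
      2 * ((b : ℝ) + ((Nat.log 2 (F w).length : ℝ) + 1)) := by
    have h2 : (Nat.log 2 w.length : ℝ) ≤ Nat.log 2 (F w).length := by exact_mod_cast hlogF
    have h3 : (0 : ℝ) ≤ Nat.log 2 (F w).length := Nat.cast_nonneg _
    have h4 : (0 : ℝ) ≤ (b : ℝ) := Nat.cast_nonneg _
    push_cast
    linarith
  have hw0 : (0 : ℝ) ≤ w.length := Nat.cast_nonneg _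
  have hF0 : (0 : ℝ) ≤ (F w).length := Nat.cast_nonneg _
  have hb := boundsU (C := C) (N := (w.length : ℝ) + 1) (N' := ((F w).length : ℝ) + 1) (B₀ := B₀)
    (l := (b : ℝ) + ((Nat.log 2 (F w).length : ℝ) + 1))
    (l' := ((b + 1 : ℕ) : ℝ) + ((Nat.log 2 w.length : ℝ) + 1)) (s := s) (k := k) (B := B) (x := x)
    (r := ((mach D P).reads w y p r : ℝ)) (e := (cTr P : ℝ)) (a := (((s + 1) * B : ℕ) : ℝ))
    (by positivity) hll (by exact_mod_cast hs1) (by exact_mod_cast hkpos)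
    (by exact_mod_cast hBpos) (Nat.cast_nonneg _) (by linarith) hB1 (by linarith) hN'
    (by exact_mod_cast h4) (by push_cast; ring) (Nat.cast_nonneg _) b1 b2
  refine ⟨p, r, cTr P * (s * k * B), b + 1, (s + 1) * B, h1, h2, h3, hb.1, ?_⟩
  have h5 := hb.2
  have h6 : ((cTr P * (s * k * B) : ℕ) : ℝ) = (cTr P : ℝ) * ((s : ℝ) * k * B) := by push_cast; ring
  rw [h6]
  exact h5

/-- The converse: if `mach D P` accepts, then the program accepts. -/
theorem prg_sound {D : LD} {F : List Bool → List Bool} (hF : D.Is F) (P : List Ins)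
    {w y : List Bool} (h : ∃ p r, (mach D P).AcceptsAt w y p r) : ∃ t, AcceptsAt P (F w) y t := by
  obtain ⟨p, r, hr⟩ := h
  exact sound hF P w y p r hr

/-- The program accepts in `t` steps, all numbers being less than `2 ^ s`, `s ≥ ⌊log₂ n⌋ + 1`, with
`(t + 1) s ^ 5 ≤ C (n + 1) ^ 2` and `s ^ 5 ≤ C (n + 1)`. -/
def WithinT (P : List Ins) (C : ℝ) (w y : List Bool) : Prop :=
  ∃ t s : ℕ, Nat.log 2 w.length + 1 ≤ s ∧ AcceptsAt P w y t ∧
    (∀ u ≤ t, ∀ i, (conf P w y u).2 i < 2 ^ s) ∧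
    (t : ℝ) * (s : ℝ) ^ 5 ≤ C * ((w.length : ℝ) + 1) ^ 2 ∧
    (s : ℝ) ^ 5 ≤ C * ((w.length : ℝ) + 1)

/-- **Time**: a program which runs in time `C n ^ 2 / s ^ 5` is within the bounds, with a cache of one
register, every load being a transfer. -/
theorem within_of_time (P : List Ins) (C : ℝ) (w y : List Bool) (h : WithinT P C w y) :
    WithinP P (16 * C) w y := by
  obtain ⟨t, s, hs, hacc, hR, b1, b2⟩ := h
  have hl : ((s : ℝ) + ((Nat.log 2 w.length : ℝ) + 1)) ≤ 2 * s := by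
    have h1 : ((Nat.log 2 w.length + 1 : ℕ) : ℝ) ≤ s := by exact_mod_cast hs
    push_cast at h1
    linarith
  have hl0 : (0 : ℝ) ≤ (s : ℝ) + ((Nat.log 2 w.length : ℝ) + 1) := by positivity
  have hl4 : ((s : ℝ) + ((Nat.log 2 w.length : ℝ) + 1)) ^ 4 ≤ 16 * (s : ℝ) ^ 4 := by
    calc ((s : ℝ) + ((Nat.log 2 w.length : ℝ) + 1)) ^ 4 ≤ (2 * (s : ℝ)) ^ 4 :=
          pow_le_pow_left₀ hl0 hl 4
      _ = 16 * (s : ℝ) ^ 4 := by ring
  have hs0 : (0 : ℝ) ≤ s := Nat.cast_nonneg _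
  have hx : (({u ∈ Finset.range t | (ld P (conf P w y u)).isSome}).card : ℝ) ≤ t := by
    have h5 : ({u ∈ Finset.range t | (ld P (conf P w y u)).isSome}).card ≤ t := by
      refine (Finset.card_filter_le _ _).trans ?_
      rw [Finset.card_range]
    exact_mod_cast h5
  refine ⟨t, s, s, 1, 1, _, hs, Nat.one_pos, Nat.one_pos, hacc, hR, fun u hu z hz => ld_lt (hR u hu) hz,
    served_one P w y t, ?_, ?_⟩
  · rw [Nat.cast_one, mul_one]
    calc (({u ∈ Finset.range t | (ld P (conf P w y u)).isSome}).card : ℝ) * s *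
          ((s : ℝ) + ((Nat.log 2 w.length : ℝ) + 1)) ^ 4
        ≤ t * s * (16 * (s : ℝ) ^ 4) :=
          mul_le_mul (mul_le_mul_of_nonneg_right hx hs0) hl4 (pow_nonneg hl0 4)
            (mul_nonneg (Nat.cast_nonneg _) hs0)
      _ = 16 * (t * (s : ℝ) ^ 5) := by ring
      _ ≤ 16 * (C * ((w.length : ℝ) + 1) ^ 2) := by linarith
      _ = _ := by ring
  · rw [Nat.cast_one, one_mul, one_mul]
    calc (s : ℝ) * ((s : ℝ) + ((Nat.log 2 w.length : ℝ) + 1)) ^ 4
        ≤ s * (16 * (s : ℝ) ^ 4) := mul_le_mul_of_nonneg_left hl4 hs0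
      _ = 16 * (s : ℝ) ^ 5 := by ring
      _ ≤ 16 * (C * ((w.length : ℝ) + 1)) := by linarith
      _ = _ := by ring

end Pool.Agent.Helper81.UR
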