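import Pool.Agent.Helper31.SB.Final
import Pool.Agent.Helper81.UR.Prg

/-!
# Project UR (MP_c578c8_lc): machines with reading heads

`rdr_within`: a machine with `K` reading heads (`Reader K`) with `M` moves of the heads,
`M (a + 1) l ^ 4 ≤ C (n + 1) ^ 2`, is within the bounds `WithinU` as a machine with blocks.
-/

set_option autoImplicit false

namespace Pool.Agent.Helper81.UR

open Pool.Agent.Helper65.LinSpace Pool.Agent.Helper78.Mpc
open Pool.Agent.Helper92.RE (LD)
open Pool.Agent.Helper65.BR (BM Reader)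
open Pool.Agent.Helper81.RP (wd num_wd)
open Pool.Agent.Helper31.Conv (ls_log2)
open Pool.Agent.Helper31.SB

/-- The machine accepts the input word `w` of length `n`, with the additional word `y`, at some time
`r`, after `M` moves of the heads, with the following bounds: states and addresses have at most `s`
bits, the names of arrays and the numbers of the cells of the heads at most `b` bits, contents at most
`a` bits. For `l = b + ⌊log₂ n⌋ + 1`: `M (a + 1) l ^ 4 ≤ C (n + 1) ^ 2` and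
`(s + a + l) l ^ 4 ≤ C (n + 1)`. The time is not bounded. -/
def WithinR {K : ℕ} (A : Reader K) (C : ℝ) (w y : List Bool) : Prop :=
  ∃ r s b a : ℕ, A.AcceptsAt w y r ∧ A.Fits w y r s b a ∧
    (A.moves w y r : ℝ) * ((a : ℝ) + 1) *
      ((b : ℝ) + ((Nat.log 2 w.length : ℝ) + 1)) ^ 4 ≤ C * ((w.length : ℝ) + 1) ^ 2 ∧
    ((s : ℝ) + a + ((b : ℝ) + ((Nat.log 2 w.length : ℝ) + 1))) *
      ((b : ℝ) + ((Nat.log 2 w.length : ℝ) + 1)) ^ 4 ≤ C * ((w.length : ℝ) + 1)

/-- The arithmetic of the bounds. -/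
theorem boundsR {C N N' B l lw M Jn s a b x K S' c1 : ℝ}
    (hM : 0 ≤ M) (hs : 0 ≤ s) (ha : 0 ≤ a) (hb : 0 ≤ b) (hK : 0 ≤ K)
    (hN : 1 ≤ N) (hN' : 1 ≤ N') (hB : 1 ≤ B) (hNB : N ≤ B * N') (hlw : 1 ≤ lw) (hl : b + lw ≤ l)
    (hJM : Jn ≤ M) (hx : x ≤ M + 2 * (Jn + K)) (hc1 : 0 ≤ c1)
    (hS' : S' ≤ c1 * (s + (a + 1) + 2 * b + 2 + lw))
    (h1 : M * (a + 1) * l ^ 4 ≤ C * N ^ 2)
    (h2 : (s + a + l) * l ^ 4 ≤ C * N) :
    x * ((a + 1) + 1) * (2 * b + 4 + lw) ^ 4 ≤
        ((3750 + 2500 * K) + 3125 * (c1 + 1)) * C * B ^ 2 * N' ^ 2 ∧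
      (S' + (a + 1)) * (2 * b + 4 + lw) ^ 4 ≤
        ((3750 + 2500 * K) + 3125 * (c1 + 1)) * C * B ^ 2 * N' := by
  have hl1 : 1 ≤ l := by linarith
  have hl4 : 1 ≤ l ^ 4 := one_le_pow₀ hl1
  have hl40 : 0 ≤ l ^ 4 := by linarith
  have hC : 0 < C := by
    have h3 : 0 < (s + a + l) * l ^ 4 := by positivity
    by_contra h4
    have : C * N ≤ 0 := mul_nonpos_of_nonpos_of_nonneg (by linarith) (by linarith)
    linarith
  have hN0 : 0 < N := by linarith
  have hN'0 : 0 < N' := by linarith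
  have hD1 : (a + 1) * l ^ 4 ≤ C * N := by
    refine le_trans ?_ h2
    exact mul_le_mul_of_nonneg_right (by linarith) hl40
  have hlen4 : (2 * b + 4 + lw) ^ 4 ≤ 625 * l ^ 4 := by
    calc (2 * b + 4 + lw) ^ 4 ≤ (5 * l) ^ 4 := pow_le_pow_left₀ (by linarith) (by linarith) 4
      _ = _ := by ring
  have hlen0 : 0 ≤ (2 * b + 4 + lw) ^ 4 := by positivity
  have hNN : N ≤ N ^ 2 := by nlinarith
  have hN2 : C * N ^ 2 ≤ C * (B ^ 2 * N' ^ 2) := by
    refine mul_le_mul_of_nonneg_left ?_ hC.le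
    calc N ^ 2 ≤ (B * N') ^ 2 := pow_le_pow_left₀ hN0.le hNB 2
      _ = _ := by ring
  have hN1 : C * N ≤ C * (B ^ 2 * N') := by
    refine mul_le_mul_of_nonneg_left ?_ hC.le
    refine hNB.trans (mul_le_mul_of_nonneg_right ?_ hN'0.le)
    nlinarith
  have hCN : C * N ≤ C * N ^ 2 := mul_le_mul_of_nonneg_left hNN hC.le
  have hCN0 : 0 ≤ C * N := mul_nonneg hC.le hN0.le
  have p1 : 0 ≤ C * (B ^ 2 * N' ^ 2) := by positivity
  have p2 : 0 ≤ C * (B ^ 2 * N') := by positivity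
  constructor
  · have hx3 : x ≤ 3 * M + 2 * K := by linarith
    calc x * ((a + 1) + 1) * (2 * b + 4 + lw) ^ 4
        ≤ (3 * M + 2 * K) * (2 * (a + 1)) * (625 * l ^ 4) := by
          refine mul_le_mul (mul_le_mul hx3 (by linarith) (by linarith) (by linarith)) hlen4 hlen0
            (by positivity)
      _ = 3750 * (M * (a + 1) * l ^ 4) + 2500 * K * ((a + 1) * l ^ 4) := by ring
      _ ≤ 3750 * (C * N ^ 2) + 2500 * K * (C * N ^ 2) := by
          have e1 := mul_le_mul_of_nonneg_left (hD1.trans hCN) (show 0 ≤ 2500 * K by positivity)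
          linarith
      _ = (3750 + 2500 * K) * (C * N ^ 2) := by ring
      _ ≤ (3750 + 2500 * K) * (C * (B ^ 2 * N' ^ 2)) :=
          mul_le_mul_of_nonneg_left hN2 (by positivity)
      _ ≤ ((3750 + 2500 * K) + 3125 * (c1 + 1)) * (C * (B ^ 2 * N' ^ 2)) :=
          mul_le_mul_of_nonneg_right (by linarith) p1
      _ = _ := by ring
  · have e1 : S' + (a + 1) ≤ (5 * c1 + 1) * (s + a + l) := by
      have e2 : s + (a + 1) + 2 * b + 2 + lw ≤ 5 * (s + a + l) := by linarith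
      have e3 := mul_le_mul_of_nonneg_left e2 hc1
      linarith
    have e4 : 0 ≤ (5 * c1 + 1) * (s + a + l) := by positivity
    calc (S' + (a + 1)) * (2 * b + 4 + lw) ^ 4
        ≤ (5 * c1 + 1) * (s + a + l) * (2 * b + 4 + lw) ^ 4 :=
          mul_le_mul_of_nonneg_right e1 hlen0
      _ ≤ (5 * c1 + 1) * (s + a + l) * (625 * l ^ 4) := mul_le_mul_of_nonneg_left hlen4 e4
      _ = (3125 * c1 + 625) * ((s + a + l) * l ^ 4) := by ring
      _ ≤ (3125 * c1 + 625) * (C * N) := mul_le_mul_of_nonneg_left h2 (by positivity)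
      _ ≤ (3125 * c1 + 625) * (C * (B ^ 2 * N')) := mul_le_mul_of_nonneg_left hN1 (by positivity)
      _ ≤ ((3750 + 2500 * K) + 3125 * (c1 + 1)) * (C * (B ^ 2 * N')) :=
          mul_le_mul_of_nonneg_right (by linarith) p2
      _ = _ := by ring

/-- The constant. -/
noncomputable def cR2 (K cD b₀ : ℕ) (C : ℝ) : ℝ :=
  ((3750 + 2500 * (K : ℝ)) + 3125 * ((cS K cD : ℝ) + 1)) * C * ((b₀ : ℝ) + 1) ^ 2

/-- **The simulation**, with blocks of one cell. -/
theorem bm_withinU {J : SC} {K : ℕ} {A : Reader K} {x w y : List Bool} (hC : Cd J A)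
    (hL : Let J x w) {cD b₀ : ℕ}
    (hD : ∀ n u, Nat.log 2 (J.D.pos n u) ≤ cD * (Nat.log 2 n + Nat.log 2 u + 1))
    (hlen : x.length ≤ b₀ * (w.length + 1)) (hle : w.length ≤ x.length) {C : ℝ}
    (h : WithinR A C x y) : WithinU (bm J) (cR2 K cD b₀ C) w y := by
  unfold cR2
  obtain ⟨r, s, b, a, hacc, hF, h1, h2⟩ := h
  obtain ⟨S, hS⟩ : ∃ S, S = s + (a + 1) * 1 + (2 * b + 2) := ⟨_, rfl⟩
  obtain ⟨p, hp⟩ : ∃ p, p = wd (pP S w.length a 1) := ⟨_, rfl⟩
  have hnp : num p = pP S w.length a 1 := by rw [hp, num_wd pP_pos]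
  have hk : pk (num p) = a + 1 := by rw [hnp, pk_pP (by omega)]
  have hb' : pb (num p) = 1 := by rw [hnp, pb_pP (by omega) (by omega)]
  have hR : pR (num p) = 2 ^ S := by rw [hnp, pR_pP (by omega)]
  have hlR : Nat.log 2 (pR (num p)) = S := by rw [hnp, log_pR (by omega)]
  have hP : Prm (num p) w.length s b a :=
    ⟨by omega, by omega, by omega, by omega, by rw [hnp, pn_pP]⟩
  obtain ⟨τ, l, T1, T2, g1, -, g3, g4⟩ := reach hC hL hF hP r le_rfl
  have hlp : p.length ≤ 12 * S + 4 * Nat.log 2 w.length + 5 := by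
    rw [← log_num p, hnp]
    exact log_P (by omega) (by omega)
  have hfit := fits hC hF hP hR hD g4
  rw [hk, hb'] at hfit
  obtain ⟨S', hS'⟩ : ∃ S', S' = cS K cD * (S + Nat.log 2 w.length + 1) := ⟨_, rfl⟩
  have hSS : 2 * p.length + (8 + 32 * K) * S + (cD + 1) * (Nat.log 2 w.length + S + 1) + 61 ≤
      S' := by
    have e1 : S' = 100 * S + 100 * Nat.log 2 w.length + 100 + (8 + 32 * K) * S - 8 * S +
        32 * (K * Nat.log 2 w.length) + 32 * K +
        ((cD + 1) * (Nat.log 2 w.length + S + 1)) - (Nat.log 2 w.length + S + 1) := by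
      have e2 : (8 + 32 * K) * S = 8 * S + 32 * (K * S) := by ring
      have e3 : (cD + 1) * (Nat.log 2 w.length + S + 1) =
          cD * (Nat.log 2 w.length + S + 1) + (Nat.log 2 w.length + S + 1) := by ring
      have e4 : S' = 100 * S + 100 * Nat.log 2 w.length + 100 + 32 * (K * S) +
          32 * (K * Nat.log 2 w.length) + 32 * K + cD * (Nat.log 2 w.length + S + 1) := by
        rw [hS']
        unfold cS
        ring
      omega
    omega
  have hpS : p.length ≤ S' := by omega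
  have hfit' : (bm J).Fits w y p τ S' (2 * b + 4) (a + 1) := by
    intro τ' hτ
    obtain ⟨f1, f2, f3, f4⟩ := hfit τ' hτ
    refine ⟨f1.trans hSS, f2.trans hSS, f3, fun z hz => (f4 z hz).trans ?_⟩
    omega
  have hacc' : (bm J).AcceptsAt w y p τ := by
    unfold BM.AcceptsAt
    rw [g1.st, head_stn]
    exact hacc
  have hlo := loads_le hC hF hP
  rw [hb', ← g3] at hlo
  have hJM := jumps_le A x y r
  have hlog : Nat.log 2 w.length ≤ Nat.log 2 x.length := Nat.log_mono_right hle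
  have hres := boundsR (C := C) (N := (x.length : ℝ) + 1) (N' := (w.length : ℝ) + 1)
    (B := (b₀ : ℝ) + 1) (l := (b : ℝ) + ((Nat.log 2 x.length : ℝ) + 1))
    (lw := (Nat.log 2 w.length : ℝ) + 1) (M := A.moves x y r) (Jn := A.jumps x y r) (s := s)
    (a := a) (b := b) (x := (bm J).reads w y p τ) (K := K) (S' := S') (c1 := cS K cD)
    (Nat.cast_nonneg _) (Nat.cast_nonneg _) (Nat.cast_nonneg _) (Nat.cast_nonneg _)
    (Nat.cast_nonneg _)
    (le_add_of_nonneg_left (Nat.cast_nonneg _)) (le_add_of_nonneg_left (Nat.cast_nonneg _))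
    (le_add_of_nonneg_left (Nat.cast_nonneg _)) ?_ (le_add_of_nonneg_left (Nat.cast_nonneg _))
    ?_ (by exact_mod_cast hJM) ?_ (Nat.cast_nonneg _) ?_ h1 h2
  · refine ⟨p, τ, S', 2 * b + 4, a + 1, hacc', hpS, hfit', ?_, ?_⟩
    · have := hres.1
      push_cast
      convert this using 2
    · have := hres.2
      push_cast
      convert this using 2
  · have h3 : x.length + 1 ≤ (b₀ + 1) * (w.length + 1) := by nlinarith
    exact_mod_cast h3
  · have : (Nat.log 2 w.length : ℝ) ≤ Nat.log 2 x.length := by exact_mod_cast hlog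
    linarith
  · have h4 : ((1 * (bm J).reads w y p τ : ℕ) : ℝ) ≤
        ((A.moves x y r + 2 * 1 * (A.jumps x y r + K) : ℕ) : ℝ) := by exact_mod_cast hlo
    push_cast at h4
    linarith
  · have h4 : (S' : ℝ) = ((cS K cD * (S + Nat.log 2 w.length + 1) : ℕ) : ℝ) := by rw [hS']
    rw [h4, hS]
    push_cast
    refine le_of_eq ?_
    ring

/-- **Machines with reading heads**: there is a machine with blocks which is equivalent and within the
bounds. -/
theorem rdr_within {D : LD} {F : List Bool → List Bool} (hF : D.Is F) {b₀ : ℕ}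
    (hlen : ∀ w, (F w).length ≤ b₀ * (w.length + 1)) (hle : ∀ w, w.length ≤ (F w).length)
    {K : ℕ} (A : Reader K) (C : ℝ) :
    ∃ (M : BM) (C' : ℝ), (∀ w y, (∃ p r, M.AcceptsAt w y p r) → ∃ t, A.AcceptsAt (F w) y t) ∧
      ∀ w y : List Bool, WithinR A C (F w) y → WithinU M C' w y := by
  obtain ⟨J, hJ, hC⟩ := exists_sc A D
  obtain ⟨cD, hD⟩ := ls_log2 D.ls_pos
  subst hJ
  have hL : ∀ w, Let J (F w) w := fun w => (hF w).2
  refine ⟨bm J, cR2 K cD b₀ C, ?_, ?_⟩
  · rintro w y ⟨p, r, h1⟩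
    exact Pool.Agent.Helper31.SB.sound hC (hL w) h1
  · exact fun w y h => bm_withinU hC (hL w) hD (hlen w) (hle w) h

end Pool.Agent.Helper81.UR
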