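import Pool.Agent.Helper53.UR.Hub
import Pool.Agent.Helper81.UR.Rdr

/-!
# Project UR (MP_c578c8_lc), packet RES, with the version for reading heads

`gRES : GoalRES`, and `res3`: the same with machines with reading heads as a third part.
-/

set_option autoImplicit false

namespace Pool.Agent.Helper81.UR

open Pool.Agent.Helper65.LinSpace Pool.Agent.Helper78.Mpc
open Pool.Agent.Helper1.TE (USPACE)
open Pool.Agent.Helper65.BR (BM Reader)
open Pool.Agent.Helper81.Gen4 (Q)
open Pool.Agent.Helper31.Gen5 (Hard)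
open Pool.Agent.Helper92.KR (Coded)
open Pool.Agent.Helper53.UR (HubOK MainU GoalRES NFU accU)
open Pool.Agent.Helper31.SB (idD idD_is)

/-- The conclusion of FNU. -/
def FnuOK : Prop := ∀ (A : BM) (C : ℝ), ∃ e n₀ : ℕ, ∀ w y : List Bool, n₀ ≤ w.length →
    (∀ T < NFU (num w), accU e (num w) (num y) T ≠ 0 → ∃ p r, A.AcceptsAt w y p r) ∧
    (Pool.Agent.Helper53.UR.WithinU A C w y → ∃ T < NFU (num w), accU e (num w) (num y) T ≠ 0)

theorem coded_bm (h : FnuOK) (A : BM) (C : ℝ) :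
    Coded accU NFU (fun w y => ∃ p r, A.AcceptsAt w y p r)
      (Pool.Agent.Helper53.UR.WithinU A C) := h A C

theorem coded_prg (h : FnuOK) (P : List Pool.Agent.Helper81.RP.Ins) (C : ℝ) :
    Coded accU NFU (fun w y => ∃ t, Pool.Agent.Helper81.RP.AcceptsAt P w y t) (WithinP P C) := by
  obtain ⟨C', hC'⟩ := prg_within idD_is (b₀ := 1) (fun w => by simp) (fun w => le_rfl) P C
  obtain ⟨e, n₀, he⟩ := h (Pool.Agent.Helper81.IC.mach idD P) C'
  refine ⟨e, n₀, fun w y hw => ⟨fun T hT hne => ?_, fun hw' => ?_⟩⟩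
  · exact prg_sound idD_is P ((he w y hw).1 T hT hne)
  · exact (he w y hw).2 (hC' w y hw')

theorem coded_rdr (h : FnuOK) {K : ℕ} (A : Reader K) (C : ℝ) :
    Coded accU NFU (fun w y => ∃ t, A.AcceptsAt w y t) (WithinR A C) := by
  obtain ⟨M, C', hM, hC'⟩ := rdr_within idD_is (b₀ := 1) (fun w => by simp) (fun w => le_rfl) A C
  obtain ⟨e, n₀, he⟩ := h M C'
  refine ⟨e, n₀, fun w y hw => ⟨fun T hT hne => ?_, fun hw' => ?_⟩⟩
  · exact hM w y ((he w y hw).1 T hT hne)
  · exact (he w y hw).2 (hC' w y hw')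

/-- Time, without a cache. -/
theorem coded_time (h : FnuOK) (P : List Pool.Agent.Helper81.RP.Ins) (C : ℝ) :
    Coded accU NFU (fun w y => ∃ t, Pool.Agent.Helper81.RP.AcceptsAt P w y t) (WithinT P C) := by
  obtain ⟨e, n₀, he⟩ := coded_prg h P (16 * C)
  exact ⟨e, n₀, fun w y hw => ⟨(he w y hw).1, fun hw' => (he w y hw).2
    (within_of_time P C w y hw')⟩⟩

theorem gRES : GoalRES := by
  intro hub h c hc
  obtain ⟨L, h1, h2, h3⟩ := hub c hc
  exact ⟨L, h1, h2, fun A C => h3 _ _ (coded_bm h A C), fun P C => h3 _ _ (coded_prg h P C)⟩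

/-- The statement with reading heads. -/
def MainR : Prop := ∀ c : ℕ, 0 < c → ∃ L : Set (List Bool), L ∈ USPACE (fun n => (n : ℝ)) ∧
  Lᶜ ∈ USPACE (fun n => (n : ℝ)) ∧
  (∀ (P : List Pool.Agent.Helper81.RP.Ins) (C : ℝ),
    Hard L c (fun w α => ∃ t, Pool.Agent.Helper81.RP.AcceptsAt P w α t) (WithinP P C) ∧
    Hard L c (fun w α => Q (c * w.length) fun v =>
        ∃ t, Pool.Agent.Helper81.RP.AcceptsAt P w (α ++ v) t)
      (fun w α => Q (c * w.length) fun v => WithinP P C w (α ++ v))) ∧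
  (∀ (K : ℕ) (A : Reader K) (C : ℝ),
    Hard L c (fun w α => ∃ t, A.AcceptsAt w α t) (WithinR A C) ∧
    Hard L c (fun w α => Q (c * w.length) fun v => ∃ t, A.AcceptsAt w (α ++ v) t)
      (fun w α => Q (c * w.length) fun v => WithinR A C w (α ++ v))) ∧
  ∀ (A : BM) (C : ℝ),
    Hard L c (fun w α => ∃ p r, A.AcceptsAt w α p r) (WithinU A C) ∧
    Hard L c (fun w α => Q (c * w.length) fun v => ∃ p r, A.AcceptsAt w (α ++ v) p r)
      (fun w α => Q (c * w.length) fun v => WithinU A C w (α ++ v))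

/-- **Programs, reading heads and blocks.** -/
theorem res3 (hub : HubOK) (h : FnuOK) : MainR := by
  intro c hc
  obtain ⟨L, h1, h2, h3⟩ := hub c hc
  exact ⟨L, h1, h2, fun P C => h3 _ _ (coded_prg h P C), fun K A C => h3 _ _ (coded_rdr h A C),
    fun A C => h3 _ _ (coded_bm h A C)⟩

end Pool.Agent.Helper81.UR
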